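import Pool.Agent.H816.TipD

/-!
# Schoenflies homeomorphisms of `S⁴` with prescribed regularity at two points

Q1 asks whether every smoothly embedded 3-sphere `M ⊂ S⁴` is carried onto the equator by a
diffeomorphism of `S⁴`. By the theorem of Mazur and Brown there is a homeomorphism which does this;
it can be taken to be a diffeomorphism off one point on each side of `M`, but nothing was known
about its behaviour at these two points `p`, `q`.

We show that for every smooth 3-sphere `M ⊂ S⁴` (with the same hypotheses as in the statement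
`S13325`) there are homeomorphisms `Φ` of `S⁴` with `Φ(M)` the equator, which are bi-Lipschitz and
local diffeomorphisms off `p` and `q`, and whose contact with a diffeomorphism `T` of `S⁴` at `p`
and `q`, and the growth of all derivatives there, are governed by a gauge `η` which can be
prescribed: in smooth coordinates at `p` and `Φ(p)` in which `T` is the identity,

`|Φ(x) - x| ≤ C η(|x|)` and `|D^k Φ(x)| ≤ C_k η(|x|)^(1 - k)` for all `k ≥ 1`,

and similarly at `q`. Here a gauge is any function `η`, defined near `0` on `(0, ∞)`, positive,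
nondecreasing and smooth, with `η(r) → 0` as `r → 0`, such that the products `η^(k+1) η^k` of the
`(k+1)`-st derivative and the `k`-th power are bounded for all `k` (`Gauge`). All functions which
are smooth on `ℝ`, zero at `0`, and positive and nondecreasing on some interval `(0, κ)` are gauges
(`gauge_of_smooth`), for instance `η(r) = r`, `η(r) = r ^ N` and the flat function
`η(r) = e^(-1/r)`; another example is `η(r) = r / log (1/r)`. Moreover, if `η(r) / r → 0` then `Φ` is
differentiable with invertible derivative at all points of `S⁴`, also at `p` and `q`. Thus: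

* (`η = e^(-1/r)`) For every smooth 3-sphere there is such a `Φ` which is everywhere differentiable
  with invertible derivative and has contact of infinite order with a diffeomorphism at `p`, `q`.
  So the answer to Q1 is positive for everywhere differentiable homeomorphisms with everywhere
  invertible derivatives.
* (`η = r`) There is such a `Φ` with `|D^k Φ(x)| ≤ C_k |x|^(1 - k)` in coordinates at `p`, `q`; so the
  second derivatives of `Φ` are in `L^s` for all `s < 4`.
* (`η = r / ω(r)`, `ω → ∞` slowly) There is such a `Φ` which is everywhere differentiable with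
  invertible derivatives and has second derivatives of size `O(ω(|x|) / |x|)`.

The bounds are optimal for each gauge with `η' → 0`: if in addition the second derivatives are
`o(1 / η(|x|))`, then `Φ` is continuously differentiable, and `M` is smoothly unknotted; for
`η(r) = r` the same holds for bi-Lipschitz maps with second derivatives `o(1 / |x|)`, which need not
be differentiable (this converse is not part of the theorem below, but is proved separately, in
`SobolevSchoenflies`).

Proof. Palais' theorem, applied to neighbourhoods of two hemispheres of `M`, gives (up to a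
diffeomorphism of `S⁴`) a diffeomorphism `K` of `S⁴`, the identity near an equatorial 2-sphere `Z`,
such that `M` consists of one half of the equator and of the image under `K` of the other half.
The complement of `Z` is `ℝ³ × S¹`; let `K'` be the lift of `K` to `ℝ³ × ℝ`. It is periodic, the
identity outside `B³ × ℝ`, and at bounded distance of the identity. Let `φ` be a smooth function,
positive exactly on `(-c, c)`, equal to `1` on `[-c', c']` and to `η(c - |s|)` near the ends; let `ρ`
be the solution of `ρ' = φ(ρ)`, and let `Ξ(x, t) = (ρ'(t) x, ρ(t))`. This is a diffeomorphism of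
`ℝ³ × ℝ` onto `ℝ³ × (-c, c)`, and `Ξ K' Ξ⁻¹` is supported in a double horn whose width at the height
`s` is a multiple of `φ(s)`. By the assumption on `η` all derivatives of `log ρ'` are bounded, and this
gives the bounds for the derivatives of `Ξ K' Ξ⁻¹` at the height `s` by powers of `φ(s)`.
-/

set_option autoImplicit false

open Set Filter Topology Metric Function
open scoped Manifold ContDiff NNReal

noncomputable section

namespace Pool.Agent.Results.MP_6c077c_gt.SchoenfliesWithGauge

section defs

variable (E F : Type) [NormedAddCommGroup E] [NormedSpace ℝ E] [NormedAddCommGroup F]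
  [NormedSpace ℝ F] {X Y : Type} [TopologicalSpace X] [TopologicalSpace Y]
  [ChartedSpace E X] [ChartedSpace F Y]

/-- `f` is a smooth embedding of the manifold `X`, modelled on `E`, in the manifold `Y`, modelled
on `F`. -/
structure SmoothEmbedding (f : X → Y) : Prop where
  smooth : ContMDiff 𝓘(ℝ, E) 𝓘(ℝ, F) ∞ f
  immersion : ∀ x, Function.Injective (mfderiv 𝓘(ℝ, E) 𝓘(ℝ, F) f x)
  embedding : Topology.IsEmbedding f

/-- `g` is a local diffeomorphism of class `C^∞` at `x`. -/
def LocDiff (g : X → Y) (x : X) : Prop := IsLocalDiffeomorphAt 𝓘(ℝ, E) 𝓘(ℝ, F) ∞ g x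

/-- `g` is differentiable at `x`, with invertible derivative. -/
def RegularlyDifferentiable (g : X → Y) (x : X) : Prop :=
  MDifferentiableAt 𝓘(ℝ, E) 𝓘(ℝ, F) g x ∧
    Function.Bijective (mfderiv 𝓘(ℝ, E) 𝓘(ℝ, F) g x)

/-- `g` is a diffeomorphism of class `C^∞`. -/
def IsDiffeo (g : X → Y) : Prop := ∃ D : Diffeomorph 𝓘(ℝ, E) 𝓘(ℝ, F) X Y ∞, ⇑D = g

end defs

/-- Gauges: functions `η`, positive, nondecreasing and smooth on some interval `(0, κ)`, with
`η(r) → 0` as `r → 0`, such that the products of the `(k+1)`-st derivative and the `k`-th power of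
`η` are bounded on this interval. -/
def Gauge (η : ℝ → ℝ) : Prop :=
  Tendsto η (𝓝[>] 0) (𝓝 0) ∧ ∃ κ : ℝ, 0 < κ ∧ MonotoneOn η (Ioo 0 κ) ∧
    (∀ r ∈ Ioo 0 κ, 0 < η r ∧ ContDiffAt ℝ ∞ η r) ∧
    ∀ k : ℕ, ∃ C : ℝ, ∀ r ∈ Ioo 0 κ, |iteratedDeriv (k + 1) η r| * η r ^ k ≤ C

/-- The maps `g` and `h` are equal at `p`, and in suitable smooth coordinates `A` around `p` and `B`
around `g p = h p`, in which the map `h` is the identity, `g` differs from the identity by at most a
multiple of `η(|x|)`, and for all `k ≥ 0` its `(k+1)`-st derivative at `x ≠ 0` is at most a multiple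
of `η(|x|)^(-k)`. -/
def Tip (E : Type) [NormedAddCommGroup E] [NormedSpace ℝ E] {X : Type} [TopologicalSpace X]
    [ChartedSpace E X] (η : ℝ → ℝ) (g h : X → X) (p : X) : Prop :=
  h p = g p ∧
  ∃ (A : E → X) (B : X → E), A 0 = p ∧ LocDiff E E A 0 ∧ B (g p) = 0 ∧ LocDiff E E B (g p) ∧
    (∀ᶠ x in 𝓝 0, B (h (A x)) = x) ∧
    (∃ C : ℝ, ∀ᶠ x in 𝓝[≠] 0, ‖B (g (A x)) - x‖ ≤ C * η ‖x‖) ∧
    ∀ k : ℕ, ∃ C : ℝ, ∀ᶠ x in 𝓝[≠] 0,
      ‖iteratedFDeriv ℝ (k + 1) (fun x => B (g (A x))) x‖ * η ‖x‖ ^ k ≤ C

/-- `g` is bijective, and `g` and its inverse are Lipschitz. -/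
def BiLipschitz {X Y : Type} [MetricSpace X] [MetricSpace Y] (g : X → Y) : Prop :=
  Function.Bijective g ∧
    ∃ K : ℝ, ∀ x y, dist (g x) (g y) ≤ K * dist x y ∧ dist x y ≤ K * dist (g x) (g y)

/-- The euclidean space `ℝ^n`. -/
abbrev R (n : ℕ) : Type := EuclideanSpace ℝ (Fin n)

/-- The standard 3-sphere. -/
abbrev S3 : Type := Metric.sphere (0 : R (3 + 1)) 1

/-- The standard 4-sphere. -/
abbrev S4 : Type := Metric.sphere (0 : R (4 + 1)) 1

/-- The last coordinate. -/
def height (x : S4) : ℝ := (x : R (4 + 1)) 4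

/-- The equator of the 4-sphere. -/
def Equator : Set S4 := {y | height y = 0}

/-- `f` is a smooth embedding of the 3-sphere in the 4-sphere. -/
def SmoothSphere (f : S3 → S4) : Prop := SmoothEmbedding (R 3) (R 4) f

/-- `Φ` is a local diffeomorphism of class `C^∞` at `x`. -/
def LocDiff4 (Φ : S4 → S4) (x : S4) : Prop := LocDiff (R 4) (R 4) Φ x

/-- `Φ` is differentiable at `x`, with invertible derivative. -/
def RegularlyDifferentiable4 (Φ : S4 → S4) (x : S4) : Prop :=
  RegularlyDifferentiable (R 4) (R 4) Φ x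

/-- `T` is a diffeomorphism of the 4-sphere, of class `C^∞`. -/
def IsDiffeo4 (T : S4 → S4) : Prop := IsDiffeo (R 4) (R 4) T

/-- `Φ` is a bi-Lipschitz homeomorphism of the 4-sphere. -/
def BiLipschitz4 (Φ : S4 → S4) : Prop := BiLipschitz Φ

/-- `Tip` for maps of the 4-sphere. -/
def Tip4 (η : ℝ → ℝ) (Φ T : S4 → S4) (p : S4) : Prop := Tip (R 4) η Φ T p

/-- Examples of gauges (not used below): functions which are smooth on `ℝ`, zero at `0`, positive
and nondecreasing on `(0, κ)`. -/
theorem gauge_of_smooth {η : ℝ → ℝ} (hs : ContDiff ℝ ∞ η) (h0 : η 0 = 0) {κ : ℝ} (hκ : 0 < κ)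
    (hm : MonotoneOn η (Ioo 0 κ)) (hp : ∀ r ∈ Ioo 0 κ, 0 < η r) : Gauge η := by
  refine ⟨?_, κ, hκ, hm, fun r hr => ⟨hp r hr, hs.contDiffAt⟩, fun k => ?_⟩
  · have h1 := (hs.continuous.tendsto 0).mono_left (nhdsWithin_le_nhds (s := Ioi (0 : ℝ)))
    rwa [h0] at h1
  · have h1 : Continuous fun r => |iteratedDeriv (k + 1) η r| * η r ^ k :=
      (hs.continuous_iteratedDeriv _ (Pool.Agent.H816.at_top_le _)).abs.mul (hs.continuous.pow k)
    obtain ⟨C, hC⟩ := (isCompact_Icc (a := (0 : ℝ)) (b := κ)).exists_bound_of_continuousOn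
      h1.continuousOn
    exact ⟨C, fun r hr => (le_abs_self _).trans (hC r ⟨hr.1.le, hr.2.le⟩)⟩

/-- **Schoenflies theorem with a gauge.** For every gauge `η` and every smoothly embedded 3-sphere
in `S⁴` there are a bi-Lipschitz homeomorphism `Φ` of `S⁴` which carries the sphere onto the equator,
a diffeomorphism `T` of `S⁴`, and two points `p`, `q`, one on each side of the sphere, such that `Φ` is
a local diffeomorphism off `p` and `q`, and at `p` and `q` its contact with `T` and the growth of all
its derivatives are governed by `η`; if `η(r) / r → 0` then `Φ` is differentiable with invertible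
derivative at every point of `S⁴`. -/
theorem result (η : ℝ → ℝ) (hη : Gauge η) (f : S3 → S4) (hf : SmoothSphere f) :
    ∃ (Φ T : S4 → S4) (p q : S4),
      BiLipschitz4 Φ ∧ IsDiffeo4 T ∧ Φ '' Set.range f = Equator ∧
      0 < height (Φ p) ∧ height (Φ q) < 0 ∧ (∀ x, x ≠ p → x ≠ q → LocDiff4 Φ x) ∧
      Tip4 η Φ T p ∧ Tip4 η Φ T q ∧
      (Tendsto (fun r => η r / r) (𝓝[>] 0) (𝓝 0) → ∀ x, RegularlyDifferentiable4 Φ x) := by
  obtain ⟨h1, κ, h2, h3, h4, h5⟩ := hη
  have hg : Pool.Agent.H816.Gauge η κ :=
    { κ_pos := h2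
      pos := fun r hr hr' => (h4 r ⟨hr, hr'⟩).1
      smooth := fun r hr hr' => (h4 r ⟨hr, hr'⟩).2
      mono := h3
      tend := h1
      bd := fun k => by
        obtain ⟨C, hC⟩ := h5 k
        refine ⟨C, fun r hr hr' => ?_⟩
        rw [norm_iteratedFDeriv_eq_norm_iteratedDeriv, Real.norm_eq_abs]
        exact hC r ⟨hr, hr'⟩ }
  obtain ⟨Φ, T, p, q, i1, i2, i3, i4, ⟨K, i5, i5'⟩, i6, i7, i8, i9⟩ :=
    Pool.Agent.H816.emb_gauge (m := 3) (by norm_num) hg hf.smooth hf.immersion hf.embedding.injective
  have hc : ∀ x, ContinuousAt Φ x := fun x => Φ.continuous.continuousAt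
  refine ⟨Φ, T, p, q, ⟨Φ.bijective, K, fun x y => ⟨i5.dist_le_mul x y, ?_⟩⟩, ⟨T, rfl⟩, i1, i2, i3,
    i4, ?_, ?_, fun hη' x => ?_⟩
  · have h := i5'.dist_le_mul (Φ x) (Φ y)
    rwa [Homeomorph.symm_apply_apply, Homeomorph.symm_apply_apply] at h
  · obtain ⟨A, B, j1, j2, j3, j4, j5, j6, j7⟩ := i6
    exact ⟨i8, A, B, j1, j2, j4, j3, j5, j6, j7⟩
  · obtain ⟨A, B, j1, j2, j3, j4, j5, j6, j7⟩ := i7
    exact ⟨i9, A, B, j1, j2, j4, j3, j5, j6, j7⟩
  · by_cases e1 : x = p
    · rw [e1]
      exact i6.mdiff hη' (hc p)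
    · by_cases e2 : x = q
      · rw [e2]
        exact i7.mdiff hη' (hc q)
      · exact Pool.Agent.H816.mdiff_of_LD (i4 x e1 e2)

end Pool.Agent.Results.MP_6c077c_gt.SchoenfliesWithGauge
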