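import Pool.Agent.H816.Emb2
import Pool.Agent.H816.Rig2
import Pool.Agent.H816.Sk14
import Pool.Agent.Results.MP_cb9bff_gt.SobolevPhases
import Pool.Graph.R_pool_sql_team_seeded_2aa45f1a.Results.MP_6c077c_gt.AsymptoticallyAffineEquivalence

/-!
# The critical Sobolev exponent of the smooth Schoenflies problem

Q1 asks whether every smoothly embedded 3-sphere `M ⊂ S⁴` is carried onto the equator by a
diffeomorphism of `S⁴`. By Mazur, Morse and Brown there is a homeomorphism. We measure the
regularity of the homeomorphism by the integrability of its second derivatives, and find one critical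
exponent.

1. Below the exponent 4 there is no obstruction: every smooth 3-sphere in `S⁴` is carried onto the
   equator by a homeomorphism `F` of `S⁴` which is locally bi-Lipschitz and of class `W^{2,q}` for all
   `q < 4` (in smooth coordinates), everywhere differentiable with invertible derivative, and a local
   diffeomorphism off two points, which are not on the 3-sphere.
2. At the exponent 4 the problem is rigid: a smooth 3-sphere is smoothly unknotted if and only if it is
   carried onto the equator by a homeomorphism `F` of `S⁴` which is a local diffeomorphism near the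
   3-sphere and, near all other points, locally bi-Lipschitz and of class `W^{2,4}`. So Q1 is the
   question whether `q < 4` can be replaced by `q = 4` in 1.
3. More generally let `M ⊂ S⁴` be any closed set and `F` a homeomorphism of `S⁴` such that every point
   `x` of `S⁴` either is a point where `F` is a local diffeomorphism, or does not belong to `M` and is
   such that one of the following two conditions is satisfied near `x`, in smooth coordinates around
   `x` and `F(x)`. Either `F` is bi-Lipschitz and of class `W^{2,4}`. Or `F` is bi-Lipschitz, of class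
   `C²` off the point, and
   `|F(y) - y| ≤ C η(|y|)`, `|D²F(y)| = o(1 / η(|y|))`,
   where `η` is a positive differentiable function on some interval `(0, κ)` with `η(r) → 0` and
   `η'(r)` convergent as `r → 0` (for instance `η(r) = r`, `η(r) = r / log (1/r)` or
   `η(r) = e^(-1/r)`), which may depend on the point. Then every neighbourhood of the graph of `F`
   contains the graph of a diffeomorphism of `S⁴` which agrees with `F` near `M`. Part 2 is true with
   these more general homeomorphisms.

The second condition in 3 is sharp as well: by our `SchoenfliesWithGauge` every smooth 3-sphere is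
carried onto the equator by a homeomorphism with `|D²F(y)| = O(1 / η(|y|))` at two points.

Proof. For 1, the homeomorphism of `SchoenfliesWithGauge` is replaced near its two singular points, as
in the first part of our `MP_cb9bff_gt.SobolevPhases`, by one with a slowly rotating and shrinking
horn, whose second derivatives are `O(log (1/r) / r)`. For 3, a map of class `W^{2,4}` is
asymptotically affine at all points by the Poincaré inequality. In the second case, if `η' → a` with
`a ≠ 0` then `|D²F(y)| = o(1 / |y|)`, and integration of this bound shows that on small balls around or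
near the point the map is close to affine maps, at all small scales. If `η' → 0`, then at the distance
`r` of the point one interpolates between the two bounds on balls of radius `η(r) / δ`, which are much
smaller than `r`, and finds `DF → id`; so the map is continuously differentiable. In all cases the
map is asymptotically affine at the point, and the library theorem `AsymptoticallyAffineEquivalence`
applies.
-/

set_option autoImplicit false

open Set Filter Topology Metric Function MeasureTheory
open scoped Manifold ContDiff ENNReal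

noncomputable section

namespace Pool.Agent.Results.MP_6c077c_gt.SobolevSchoenflies

section maps

variable (E : Type) [NormedAddCommGroup E] [NormedSpace ℝ E]

/-- The map `G` is bi-Lipschitz near `0`. -/
def BiLipschitz (G : E → E) : Prop :=
  ∃ K : ℝ, ∀ᶠ z in 𝓝 (0 : E × E),
    ‖G z.1 - G z.2‖ ≤ K * ‖z.1 - z.2‖ ∧ ‖z.1 - z.2‖ ≤ K * ‖G z.1 - G z.2‖

/-- On some ball around `0` the map `G` has a weak second derivative `H` with components of class
`L^q`: for all smooth functions `φ` with compact support in this ball and all `v` and `w`,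
`∫ D²φ(x)(v,w) G(x) dx = ∫ φ(x) H(x)(v,w) dx`. -/
def W2 [MeasureSpace E] (q : ℝ≥0∞) (G : E → E) : Prop :=
  ∃ (ρ : ℝ) (H : E → E →L[ℝ] E →L[ℝ] E), 0 < ρ ∧
    (∀ v w, MemLp (fun x => H x v w) q (volume.restrict (ball 0 ρ))) ∧
    ∀ φ : E → ℝ, ContDiff ℝ ∞ φ → HasCompactSupport φ → tsupport φ ⊆ ball 0 ρ → ∀ v w : E,
      ∫ x, fderiv ℝ (fun y => fderiv ℝ φ y w) x v • G x = ∫ x, φ x • H x v w

/-- `G` is bi-Lipschitz near `0` and of class `C²` near `0`, off `0`, with `G(0) = 0`, the distance of
`G(x)` and `x` is at most a multiple of `η(|x|)`, and the second derivatives of `G` at `x` are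
`o(1 / η(|x|))`. -/
def SlowGrowth (η : ℝ → ℝ) (G : E → E) : Prop :=
  G 0 = 0 ∧ BiLipschitz E G ∧ (∀ᶠ x in 𝓝[≠] 0, ContDiffAt ℝ 2 G x) ∧
    (∃ C : ℝ, ∀ᶠ x in 𝓝[≠] 0, ‖G x - x‖ ≤ C * η ‖x‖) ∧
    Tendsto (fun x => ‖iteratedFDeriv ℝ 2 G x‖ * η ‖x‖) (𝓝[≠] 0) (𝓝 0)

end maps

section manifolds

variable (E F : Type) [NormedAddCommGroup E] [NormedSpace ℝ E] [NormedAddCommGroup F]
  [NormedSpace ℝ F] {X Y : Type} [TopologicalSpace X] [TopologicalSpace Y]
  [ChartedSpace E X] [ChartedSpace F Y]

/-- `f` is a smooth embedding of the manifold `X`, modelled on `E`, in the manifold `Y`, modelled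
on `F`. -/
structure SmoothEmbedding (f : X → Y) : Prop where
  smooth : ContMDiff 𝓘(ℝ, E) 𝓘(ℝ, F) ∞ f
  immersion : ∀ x, Injective (mfderiv 𝓘(ℝ, E) 𝓘(ℝ, F) f x)
  embedding : Topology.IsEmbedding f

/-- `g` is a local diffeomorphism of class `C^∞` at `x`. -/
def LocDiff (g : X → Y) (x : X) : Prop := IsLocalDiffeomorphAt 𝓘(ℝ, E) 𝓘(ℝ, F) ∞ g x

/-- `g` is a diffeomorphism of class `C^∞`. -/
def IsDiffeo (g : X → Y) : Prop := ∃ D : Diffeomorph 𝓘(ℝ, E) 𝓘(ℝ, F) X Y ∞, ⇑D = g

/-- `g` is differentiable at `x`, with invertible derivative. -/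
def RegularAt (g : X → Y) (x : X) : Prop :=
  MDifferentiableAt 𝓘(ℝ, E) 𝓘(ℝ, F) g x ∧ Bijective (mfderiv 𝓘(ℝ, E) 𝓘(ℝ, F) g x)

end manifolds

section coordinates

variable (E : Type) [NormedAddCommGroup E] [NormedSpace ℝ E] {X : Type} [TopologicalSpace X]
  [ChartedSpace E X]

/-- In suitable smooth coordinates `A` around `x` and `B` around `g x`, the map `g` has the
property `P`. -/
def InCoordinates (P : (E → E) → Prop) (g : X → X) (x : X) : Prop :=
  ∃ (A : E → X) (B : X → E), A 0 = x ∧ LocDiff E E A 0 ∧ LocDiff E E B (g x) ∧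
    P fun y => B (g (A y))

/-- Every neighbourhood `O` of the graph of `g` contains the graph of a diffeomorphism `D` which agrees
with `g` near `M`. -/
def Limit (M : Set X) (g : X → X) : Prop :=
  ∀ O : Set (X × X), IsOpen O → (∀ x, (x, g x) ∈ O) →
    ∃ D : X → X, IsDiffeo E E D ∧ (∀ x, (x, D x) ∈ O) ∧ ∀ x ∈ M, D =ᶠ[𝓝 x] g

end coordinates

/-- The euclidean space `ℝ^n`. -/
abbrev R (n : ℕ) : Type := EuclideanSpace ℝ (Fin n)

/-- The standard 3-sphere. -/
abbrev S3 : Type := Metric.sphere (0 : R (3 + 1)) 1

/-- The standard 4-sphere. -/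
abbrev S4 : Type := Metric.sphere (0 : R (4 + 1)) 1

/-- The equator of the 4-sphere: the last coordinate is `0`. -/
def Equator : Set S4 := {y | (y : R (4 + 1)) 4 = 0}

/-- `f` is a smooth embedding of the 3-sphere in the 4-sphere. -/
def SmoothSphere (f : S3 → S4) : Prop := SmoothEmbedding (R 3) (R 4) f

/-- `g` is a local diffeomorphism of class `C^∞` at `x`. -/
def LocDiff4 (g : S4 → S4) (x : S4) : Prop := LocDiff (R 4) (R 4) g x

/-- `g` is a diffeomorphism of class `C^∞`. -/
def IsDiffeo4 (g : S4 → S4) : Prop := IsDiffeo (R 4) (R 4) g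

/-- `g` is differentiable at `x`, with invertible derivative. -/
def RegularAt4 (g : S4 → S4) (x : S4) : Prop := RegularAt (R 4) (R 4) g x

/-- `F` is a homeomorphism of the 4-sphere which carries the image of `f` onto the equator. -/
def Straightens (F : S4 → S4) (f : S3 → S4) : Prop := IsHomeomorph F ∧ F '' range f = Equator

/-- In suitable smooth coordinates around `x` and `g x`, the map `g` is bi-Lipschitz and of class
`W^{2,q}`. -/
def Sobolev (q : ℝ≥0∞) (g : S4 → S4) (x : S4) : Prop :=
  InCoordinates (R 4) (fun G => BiLipschitz (R 4) G ∧ W2 (R 4) q G) g x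

/-- Positive differentiable functions `η` on some interval `(0, κ)` with `η(r) → 0` as `r → 0`, whose
derivative converges as `r → 0`. -/
def Calm (η : ℝ → ℝ) : Prop :=
  Tendsto η (𝓝[>] 0) (𝓝 0) ∧ (∀ᶠ r in 𝓝[>] 0, 0 < η r ∧ DifferentiableAt ℝ η r) ∧
    ∃ a : ℝ, Tendsto (deriv η) (𝓝[>] 0) (𝓝 a)

/-- In suitable smooth coordinates around `x` and `g x`, the map `g` satisfies `SlowGrowth`, for some
function `η`. -/
def Slow (g : S4 → S4) (x : S4) : Prop :=
  ∃ η : ℝ → ℝ, Calm η ∧ InCoordinates (R 4) (SlowGrowth (R 4) η) g x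

/-- At every point `g` is a local diffeomorphism or `Slow` or bi-Lipschitz and of class `W^{2,4}`, and at
the points of `M` it is a local diffeomorphism. -/
def Critical (M : Set S4) (g : S4 → S4) : Prop :=
  ∀ x, LocDiff4 g x ∨ (x ∉ M ∧ (Slow g x ∨ Sobolev 4 g x))

/-- `F` is a local diffeomorphism off at most two points, and at the points of `M`; it is everywhere
differentiable with invertible derivative, and in smooth coordinates it is bi-Lipschitz and of class
`W^{2,q}` for all `q < 4`. -/
def Subcritical (M : Set S4) (F : S4 → S4) : Prop :=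
  {x | ¬ LocDiff4 F x}.encard ≤ 2 ∧ (∀ x ∈ M, LocDiff4 F x) ∧ (∀ x, RegularAt4 F x) ∧
    ∀ q : ℝ≥0∞, q < 4 → ∀ x, Sobolev q F x

/-- `Limit` for maps of the 4-sphere. -/
def LimitOfDiffeos (M : Set S4) (g : S4 → S4) : Prop := Limit (R 4) M g

section proof

open Pool.Agent.H816 Pool.Agent.H816.Sob Pool.Agent.Y522

theorem w2_sob {q : ℝ≥0∞} {G : R 4 → R 4} (h : SobolevSchoenflies.W2 (R 4) q G) :
    Sob.W2 q G :=
  MP_cb9bff_gt.SobolevPhases.w2_iff.1 h

theorem critical_limit {M : Set S4} (hM : IsClosed M) {F : S4 → S4} (hF : IsHomeomorph F)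
    (h : Critical M F) : LimitOfDiffeos M F := by
  intro O hO hFO
  obtain ⟨D, h2, h3⟩ := AsymptoticallyAffineEquivalence.result M hM (hF.homeomorph F) (fun x => by
    rcases h x with h1 | ⟨hxM, ⟨η, ⟨h0, hp, a, ha⟩, A, B, hA0, hA, hB, hG0, ⟨K, hK⟩, hG, ⟨C, hC⟩,
      ho⟩ | ⟨A, B, hA0, hA, hB, ⟨K, hK⟩, hW⟩⟩
    · exact Or.inl h1
    · refine Or.inr ⟨hxM, A, B, hA0, hA, hB, ?_⟩
      exact aa_of_gauge (V := R 4) (by simp) hK h0
        (hp.mono fun r hr => hr.1) (hp.mono fun r hr => hr.2) ha hG0 hG hC ho
    · refine Or.inr ⟨hxM, A, B, hA0, hA, hB, ?_⟩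
      refine aa_of_sob (E := R 4) (by simp) hK ?_
      have h4 : Module.finrank ℝ (R 4) = 4 := by simp
      rw [h4]
      exact w2_sob hW) O hO hFO
  exact ⟨D, ⟨D, rfl⟩, h2, h3⟩

theorem subcritical {f : S3 → S4} (hf : SmoothSphere f) :
    ∃ F : S4 → S4, Straightens F f ∧ Subcritical (range f) F := by
  obtain ⟨h1, h2, h3⟩ := hf
  obtain ⟨Φ, -, p, q, i1, i2, i3, i4, -⟩ := emb_gauge (m := 3) (by norm_num) lg_gauge h1 h2
    h3.injective
  have hM : IsCompact (range f) := isCompact_range h3.continuous
  have hE : Φ '' range f = Equator := i1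
  have hpM : p ∉ range f := fun h => by
    have h5 : Φ p ∈ Equator := by
      rw [← hE]
      exact mem_image_of_mem _ h
    exact i2.ne' h5
  have hqM : q ∉ range f := fun h => by
    have h5 : Φ q ∈ Equator := by
      rw [← hE]
      exact mem_image_of_mem _ h
    exact i3.ne h5
  have hsub : MP_cb9bff_gt.SobolevPhases.sing (R (3 + 1)) Φ ⊆ {p, q} := by
    intro x hx
    by_contra hcon
    rw [mem_insert_iff, mem_singleton_iff, not_or] at hcon
    exact hx (i4 x hcon.1 hcon.2)
  have hfin : ({p, q} : Set S4).Finite := (finite_singleton q).insert p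
  obtain ⟨U, V, hU, hV, hMU, hSV, hUV⟩ := normal_separation hM.isClosed hfin.isClosed (by
    rw [Set.disjoint_left]
    rintro x hx (rfl | rfl)
    · exact hpM hx
    · exact hqM hx)
  have := Sk.sn_mfd (m := 3)
  obtain ⟨F, ⟨⟨⟨k1, k2⟩, k3, k4⟩, k5⟩, -, k6⟩ := MP_cb9bff_gt.SobolevPhases.first (m := 3)
    (X := S4) (Y := S4) (by norm_num) Φ.isHomeomorph (hfin.subset hsub) V univ hV (hsub.trans hSV)
    isOpen_univ (fun _ => mem_univ _)
  have hFU : ∀ x ∈ U, F x = Φ x := fun x hx => k6 x fun h => Set.disjoint_left.1 hUV hx h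
  refine ⟨F, ⟨k1, ?_⟩, ?_, fun x hx => ?_, fun x => k3 x, fun q hq x => ?_⟩
  · rw [← hE]
    exact image_congr fun x hx => hFU x (hMU hx)
  · have e1 : (MP_cb9bff_gt.SobolevPhases.sing (R (3 + 1)) F).ncard ≤ 2 :=
      k5.trans ((ncard_le_ncard hsub hfin).trans (ncard_insert_le p {q} |>.trans (by rw [ncard_singleton])))
    have e2 := k4.cast_ncard_eq
    change (MP_cb9bff_gt.SobolevPhases.sing (R (3 + 1)) F).encard ≤ 2
    rw [← e2]
    exact_mod_cast e1
  · have hpq : x ≠ p ∧ x ≠ q := ⟨fun h => hpM (h ▸ hx), fun h => hqM (h ▸ hx)⟩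
    have h5 : F =ᶠ[𝓝 x] Φ := by
      filter_upwards [hU.mem_nhds (hMU hx)] with y hy
      exact hFU y hy
    exact LD.congr (i4 x hpq.1 hpq.2) h5
  · obtain ⟨A, B, h5, h6, h7, h8, h9⟩ := k2 x
    exact ⟨A, B, h5, h6, h7, h8, h9 q (by exact_mod_cast hq)⟩

end proof

/-- **The critical Sobolev exponent of the smooth Schoenflies problem.** (1) Every smooth 3-sphere in
`S⁴` is carried onto the equator by a homeomorphism of `S⁴` which is a local diffeomorphism off two
points, also at the points of the 3-sphere, everywhere differentiable with invertible derivative, and,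
in smooth coordinates, bi-Lipschitz and of class `W^{2,q}` for all `q < 4`. (2) A smooth 3-sphere is
carried onto the equator by a diffeomorphism of `S⁴` if and only if it is carried onto the equator by
a homeomorphism which is a local diffeomorphism at its points and, at every other point, a local
diffeomorphism, or bi-Lipschitz and of class `W^{2,4}`, or `Slow`. (3) Let `F` be a homeomorphism of
`S⁴` which is a local diffeomorphism at the points of a closed set `M` and, at every other point, as
in (2). Then every neighbourhood of the graph of `F` contains the graph of a diffeomorphism which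
agrees with `F` in a neighbourhood of `M`. -/
theorem result :
    (∀ f : S3 → S4, SmoothSphere f → ∃ F : S4 → S4, Straightens F f ∧ Subcritical (range f) F) ∧
    (∀ f : S3 → S4, SmoothSphere f →
      ((∃ D : S4 → S4, Straightens D f ∧ IsDiffeo4 D) ↔
        ∃ F : S4 → S4, Straightens F f ∧ Critical (range f) F)) ∧
    ∀ (M : Set S4) (F : S4 → S4), IsClosed M → IsHomeomorph F → Critical M F →
      LimitOfDiffeos M F := by
  refine ⟨fun f hf => subcritical hf, fun f hf => ⟨?_, ?_⟩, fun M F hM hF h =>
    critical_limit hM hF h⟩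
  · rintro ⟨D, ⟨h1, h2⟩, ⟨Φ, rfl⟩⟩
    exact ⟨Φ, ⟨h1, h2⟩, fun x => Or.inl (Φ.isLocalDiffeomorph x)⟩
  · rintro ⟨F, ⟨h1, h2⟩, h3⟩
    have hM : IsCompact (range f) := isCompact_range hf.embedding.continuous
    obtain ⟨D, ⟨Φ, rfl⟩, -, h5⟩ := critical_limit hM.isClosed h1 h3 univ isOpen_univ
      fun _ => mem_univ _
    refine ⟨Φ, ⟨Φ.toHomeomorph.isHomeomorph, ?_⟩, ⟨Φ, rfl⟩⟩
    rw [← h2]
    exact image_congr fun x hx => (h5 x hx).self_of_nhds

end Pool.Agent.Results.MP_6c077c_gt.SobolevSchoenflies
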