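import Pool.Agent.H822.RG.KnotField

/-!
# Long knots and Schoenflies spheres with symmetries

`P` is a subspace of dimension at least two of the real vector space `E` and `A ⊆ E` is a set which
is equal to `P` near infinity: for `E = ℝ⁴` and `P` a hyperplane, a smooth 3-sphere in `S⁴` without
one of its points, made flat near this point. For each `u ∈ P` the translation with `u`, restricted
to a neighbourhood of infinity, extends to a diffeomorphism of `E` which maps `A` onto itself. The
set `A` is unknotted (it is the image of `P` under a diffeomorphism with compact support) if and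
only if this can be done for two independent vectors by commuting diffeomorphisms, if and only if
it can be done for one vector by a diffeomorphism which preserves a field (not necessarily
continuous) of lines or of planes, or a partition into arbitrary sets, which is near infinity
parallel to a subspace of `P`.
-/

open Filter Set Topology Manifold
open scoped ContDiff
open Pool.Agent.H822.RG

namespace Pool.Agent.Results.MP_6c077c_gt.SymmetricHypersurfaces

theorem result {E : Type} [NormedAddCommGroup E] [NormedSpace ℝ E] [FiniteDimensional ℝ E]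
    (P : Submodule ℝ E) (hP : 2 ≤ Module.finrank ℝ P) (A : Set E) (hA : FlatNear P A) :
    -- one symmetry always exists
    (∀ u ∈ P, ∃ f : E ≃ₘ^∞⟮𝓘(ℝ, E), 𝓘(ℝ, E)⟯ E, NearTrans u f ∧ Keeps f A) ∧
    List.TFAE [
      UnknottedRel P A,
      ∃ u ∈ P, ∃ v ∈ P, LinearIndependent ℝ ![u, v] ∧ TwoSymmetries A u v,
      ∀ u ∈ P, ∀ v ∈ P, TwoSymmetries A u v,
      GroupSymmetry P A,
      ∃ u ∈ P, ∃ V ≤ P, u ∉ V ∧ V ≠ ⊥ ∧ Module.finrank ℝ V ≤ 2 ∧
        (FieldSymmetry A u V ∨ PartitionSymmetry A u V),
      ∀ u ∈ P, ∀ V : Submodule ℝ E, FieldSymmetry A u V ∧ PartitionSymmetry A u V] := by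
  refine ⟨fun u hu => knot_single hA hu, ?_⟩
  obtain ⟨u, hu, v, hv, huv⟩ : ∃ u ∈ P, ∃ v ∈ P, LinearIndependent ℝ ![u, v] := by
    obtain ⟨f, hf⟩ := exists_linearIndependent_of_le_finrank hP
    refine ⟨f 0, (f 0).2, f 1, (f 1).2, ?_⟩
    have h1 : LinearIndependent ℝ ((P.subtype : P →ₗ[ℝ] E) ∘ f) :=
      hf.map' P.subtype P.ker_subtype
    have h2 : ![((f 0 : P) : E), ((f 1 : P) : E)] = (P.subtype : P →ₗ[ℝ] E) ∘ f := by
      ext i
      fin_cases i <;> rfl
    rw [h2]
    exact h1
  have hline : u ∉ Submodule.span ℝ {v} := by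
    intro hcon
    obtain ⟨a, ha⟩ := Submodule.mem_span_singleton.1 hcon
    have h1 := LinearIndependent.pair_iff.1 huv 1 (-a) (by rw [← ha]; module)
    exact one_ne_zero h1.1
  have hv0 : v ≠ 0 := by
    rintro rfl
    have h1 := LinearIndependent.pair_iff.1 huv 0 1 (by simp)
    exact one_ne_zero h1.2
  tfae_have 1 → 3 := fun h u hu v hv => two_of_unknotted h hu hv
  tfae_have 3 → 2 := fun h => ⟨u, hu, v, hv, huv, h u hu v hv⟩
  tfae_have 2 → 4 := fun ⟨_, hu, _, hv, hl, h⟩ => group_of_two hu hv hl h
  tfae_have 4 → 1 := fun h => unknotted_of_group hA h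
  tfae_have 1 → 6 := fun h u hu V => ⟨field_of_unknotted h hu V, partition_of_unknotted h hu V⟩
  tfae_have 6 → 5 := fun h => ⟨u, hu, Submodule.span ℝ {v},
    (Submodule.span_singleton_le_iff_mem v P).2 hv, hline,
    fun hcon => hv0 (Submodule.span_singleton_eq_bot.1 hcon),
    (finrank_span_singleton (K := ℝ) hv0).le.trans one_le_two,
    Or.inl (h u hu _).1⟩
  tfae_have 5 → 1 := fun ⟨_, hu, _, hVP, huV, hV, hdim, h⟩ =>
    h.elim (unknotted_of_field hA hu hVP huV hV hdim)
      (unknotted_of_partition hA hu hVP huV hV hdim)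
  tfae_finish

end Pool.Agent.Results.MP_6c077c_gt.SymmetricHypersurfaces
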