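import Pool.Agent.H822.TH.Omit

/-!
# Long hypersurfaces with a Gauss map which is not onto; functions without critical points

`ℝⁿ = B × ℂ` with `B = ℝ^{n-2}`, `n ≥ 3`. A long hypersurface is the zero set `A` of a function `F`
which is equal to `re z` near infinity, with `dF ≠ 0` on `A` (a priori `A` need not be connected or
diffeomorphic to `ℝ^{n-1}`); for `n = 4` examples are the smooth 3-spheres in `S⁴` minus a point
near which they are flat. All results are for smooth families with compact support of long
hypersurfaces, with parameters in any finite dimensional space `P`.

* If the Gauss maps of the hypersurfaces omit one point of the sphere `S^{n-1}` then the family is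
  null-homotopic through long hypersurfaces whose Gauss map omits the same point: the space of these
  is weakly contractible. In particular a long hypersurface is unknotted if its Gauss map is not
  onto.
* A family of long hypersurfaces is unknotted, and even null-homotopic, if and only if there are
  functions `f_p` on `ℝⁿ` without critical points, linear near infinity, whose restrictions to the
  hypersurfaces have critical points of one sign only, if and only if there are vector fields
  without bounded orbits, constant near infinity and nowhere tangent to the hypersurfaces, and also
  if and only if there are submersions to `ℝ^{n-2}` (or to `ℝ^{n-1}`), the linear projection near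
  infinity, with fibres transverse to the hypersurfaces.

Idea of the proof: if the Gauss map omits a point there is a vector field `v` on `ℝⁿ`, constant near
infinity, without bounded orbits, which is transverse to `A`. Flowing back along the constant field
and forward along `v` for a long time gives a compactly supported diffeomorphism which makes `A`
a graph (for linear functions `μ`) and there is room to deform it to the hyperplane through such
hypersurfaces; in general `A` is made transverse to a family of parallel planes, and Smale's theorem
on the plane applies.
-/

set_option autoImplicit false

open scoped ContDiff
open Set Filter Topology Function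
open Pool.Agent.H822.LD Pool.Agent.H822.TH

namespace Pool.Agent.Results.MP_6c077c_gt.TransverseHypersurfaces

/-- Let `A_p` be a smooth compactly supported family of long hypersurfaces of `ℝⁿ = B × ℂ`, `n ≥ 3`.
1. If there is a linear function `μ ≠ 0` such that at no point of any `A_p` the differential of `F_p`
   is a positive multiple of `μ` (the Gauss maps omit the direction of `μ`) then `A_p` is the image
   of the hyperplane under compactly supported diffeomorphisms `φ_p`, and `φ` is homotopic to the
   identity through diffeomorphisms which map the hyperplane to hypersurfaces whose Gauss maps omit
   the direction of `μ`.
2. The conditions `Unknotted`, `NullHomotopic`, the existence of one-sided functions without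
   critical points, of transverse vector fields without bounded orbits, and of transverse
   submersions to `ℝ^{n-2}`, `ℝ^{n-1}` are equivalent. -/
theorem result (B : Type) [NormedAddCommGroup B] [NormedSpace ℝ B] [FiniteDimensional ℝ B]
    [Nontrivial B] (P : Type) [NormedAddCommGroup P] [NormedSpace ℝ P] [FiniteDimensional ℝ P]
    (F : P → B × ℂ → ℝ) (hF : LongFamily F) :
    (∀ μ : B × ℂ →L[ℝ] ℝ, μ ≠ 0 →
      (∀ p q, F p q = 0 → ∀ c : ℝ, 0 < c → fderiv ℝ (F p) q ≠ c • μ) →
      ∃ φ : P → Equiv.Perm (B × ℂ), Diffs φ ∧ HtpThrough (MapOmits μ) φ 1 ∧ Straightens φ F) ∧
    List.TFAE [
      Unknotted F,
      NullHomotopic F,
      ∃ (μ : B × ℂ →L[ℝ] ℝ) (f : P → B × ℂ → ℝ), OneSided μ F f,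
      HasFields F,
      HasSubmersions (toBase B) F,
      HasSubmersions (toPlane B) F] :=
  ⟨fun _ hμ h => wc_of_gauss hF hμ h, tfae_all hF⟩

end Pool.Agent.Results.MP_6c077c_gt.TransverseHypersurfaces
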